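import Pool.Agent.T6.H63.NU.Defs

/-!
Project NU (helper63), MP_4fa179_mp, module BAD.
-/

set_option autoImplicit false
open MeasureTheory Filter Topology Metric
open scoped ContDiff ENNReal

namespace Pool.Agent.T6.H63.NU

namespace BADaux

theorem acc_const {F : Type*} [NormedAddCommGroup F] [NormedSpace ℝ F] {D : Set ℝ} {p : ℝ}
    (hacc : AccPt p (𝓟 D)) (hp : p ∈ D) {g : ℝ → F} {g' : F} (hg : HasDerivAt g g' p) {c : F}
    (hc : ∀ q ∈ D, g q = c) : g' = 0 := by
  have h0 : HasDerivWithinAt g 0 D p :=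
    (hasDerivWithinAt_const p D c).congr (fun q hq => hc q hq) (hc p hp)
  exact UniqueDiffWithinAt.eq_deriv D (uniqueDiffWithinAt_iff_accPt.mpr hacc)
    hg.hasDerivWithinAt h0

theorem decomp (φ : ℝ) (x : Pl) : ∃ a b : ℝ, x = a • nv φ + b • uv φ := by
  refine ⟨-Real.sin φ * x 0 + Real.cos φ * x 1, Real.cos φ * x 0 + Real.sin φ * x 1, ?_⟩
  ext i
  have h := Real.sin_sq_add_cos_sq φ
  fin_cases i
  · simp [nv, uv]
    linear_combination -(x 0) * h
  · simp [nv, uv]
    linear_combination -(x 1) * h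

end BADaux

open BADaux

theorem bad (hN : StmSNG) : StmBAD := by
  intro f hf hlap u hne φ
  by_contra hunc
  have hcl : IsClosed {p : ℝ | ∀ t : ℝ, f (p • nv φ + t • uv φ) = u} := by
    rw [Set.ofPred_forall]
    refine isClosed_iInter fun t => isClosed_eq ?_ continuous_const
    exact hf.continuous.comp (by fun_prop)
  obtain ⟨D, hD, ⟨p₀, hp₀⟩, hDB⟩ := exists_perfect_nonempty_of_isClosed_of_not_countable hcl hunc
  have hacc : ∀ p ∈ D, AccPt p (𝓟 D) := fun p hp => hD.acc p hp
  have hval : ∀ p ∈ D, ∀ t : ℝ, f (p • nv φ + t • uv φ) = u := fun p hp t => hDB hp t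
  have hdf : Differentiable ℝ f := hf.differentiable (by simp)
  have hf1 : ContDiff ℝ ∞ (fderiv ℝ f) := hf.fderiv_right (m := ∞) (by simp)
  have hdf1 : Differentiable ℝ (fderiv ℝ f) := hf1.differentiable (by simp)
  have hl1 : ∀ p t : ℝ, HasDerivAt (fun q : ℝ => q • nv φ + t • uv φ) (nv φ) p := by
    intro p t
    simpa using ((hasDerivAt_id p).smul_const (nv φ)).add_const (t • uv φ)
  have hl2 : ∀ p t : ℝ, HasDerivAt (fun s : ℝ => p • nv φ + s • uv φ) (uv φ) t := by
    intro p t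
    simpa using ((hasDerivAt_id t).smul_const (uv φ)).const_add (p • nv φ)
  -- the first derivative vanishes
  have hD1 : ∀ p ∈ D, ∀ t : ℝ, fderiv ℝ f (p • nv φ + t • uv φ) = 0 := by
    intro p hp t
    have h1 : fderiv ℝ f (p • nv φ + t • uv φ) (nv φ) = 0 :=
      acc_const (hacc p hp) hp
        ((hdf (p • nv φ + t • uv φ)).hasFDerivAt.comp_hasDerivAt p (hl1 p t))
        (c := u) fun q hq => hval q hq t
    have h2 : fderiv ℝ f (p • nv φ + t • uv φ) (uv φ) = 0 := by
      have := (hdf (p • nv φ + t • uv φ)).hasFDerivAt.comp_hasDerivAt t (hl2 p t)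
      have hc : (f ∘ fun s : ℝ => p • nv φ + s • uv φ) = fun _ => u := by
        funext s; exact hval p hp s
      rw [hc] at this
      exact this.unique (hasDerivAt_const t u)
    ext v
    obtain ⟨a, b, hv⟩ := decomp φ v
    rw [hv, map_add, map_smul, map_smul, h1, h2]
    simp
  have hD2 : ∀ p ∈ D, ∀ t : ℝ, fderiv ℝ (fderiv ℝ f) (p • nv φ + t • uv φ) = 0 := by
    intro p hp t
    have h1 : fderiv ℝ (fderiv ℝ f) (p • nv φ + t • uv φ) (nv φ) = 0 :=
      acc_const (hacc p hp) hp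
        ((hdf1 (p • nv φ + t • uv φ)).hasFDerivAt.comp_hasDerivAt p (hl1 p t))
        (c := 0) fun q hq => hD1 q hq t
    have h2 : fderiv ℝ (fderiv ℝ f) (p • nv φ + t • uv φ) (uv φ) = 0 := by
      have := (hdf1 (p • nv φ + t • uv φ)).hasFDerivAt.comp_hasDerivAt t (hl2 p t)
      have hc : (fderiv ℝ f ∘ fun s : ℝ => p • nv φ + s • uv φ) = fun _ => 0 := by
        funext s; exact hD1 p hp s
      rw [hc] at this
      exact this.unique (hasDerivAt_const t 0)
    refine ContinuousLinearMap.ext fun v => ?_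
    obtain ⟨a, b, hv⟩ := decomp φ v
    rw [hv, map_add, map_smul, map_smul, h1, h2]
    simp
  have hlap0 : ∀ t : ℝ, laplacian f (p₀ • nv φ + t • uv φ) = 0 := by
    intro t
    unfold laplacian
    refine Finset.sum_eq_zero fun i _ => ?_
    have hh : HasFDerivAt (fun z => fderiv ℝ f z (EuclideanSpace.single i 1))
        ((ContinuousLinearMap.apply ℝ ℝ (EuclideanSpace.single i (1 : ℝ))).comp
          (fderiv ℝ (fderiv ℝ f) (p₀ • nv φ + t • uv φ))) (p₀ • nv φ + t • uv φ) :=
      (ContinuousLinearMap.apply ℝ ℝ (EuclideanSpace.single i (1 : ℝ))).hasFDerivAt.comp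
        (p₀ • nv φ + t • uv φ) (hdf1 (p₀ • nv φ + t • uv φ)).hasFDerivAt
    rw [hh.fderiv, hD2 p₀ hp₀ t]
    simp
  have hf0 : ∀ t : ℝ, f (p₀ • nv φ + t • uv φ) = 0 := by
    intro t
    have h := hlap (p₀ • nv φ + t • uv φ)
    rw [hlap0 t, zero_add] at h
    exact h
  have hu : u = 0 := by rw [← hval p₀ hp₀ 0]; exact hf0 0
  have hcount := hN f hf hlap (by rw [← hu]; exact hne)
  have hmap : Set.univ ⊆ (fun t : ℝ => p₀ • nv φ + t • uv φ) ⁻¹'
      {x | f x = 0 ∧ fderiv ℝ f x = 0} := fun t _ => ⟨hf0 t, hD1 p₀ hp₀ t⟩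
  have huv : uv φ ≠ 0 := by
    intro h
    have h0 : Real.cos φ = 0 := by simpa [uv] using congrArg (fun v : Pl => v 0) h
    have h1 : Real.sin φ = 0 := by simpa [uv] using congrArg (fun v : Pl => v 1) h
    have := Real.sin_sq_add_cos_sq φ
    rw [h0, h1] at this
    norm_num at this
  have hinj : Function.Injective (fun t : ℝ => p₀ • nv φ + t • uv φ) := by
    intro s t hst
    have : s • uv φ = t • uv φ := add_left_cancel hst
    exact smul_left_injective ℝ huv this
  have := (hcount.preimage hinj).mono hmap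
  exact Cardinal.not_countable_real this

end Pool.Agent.T6.H63.NU
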