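import Pool.Agent.T6.H63.NU.Defs

/-!
Project NU (helper63), MP_4fa179_mp, module CNT.
-/

set_option autoImplicit false
open MeasureTheory Filter Topology Metric
open scoped ContDiff ENNReal

namespace Pool.Agent.T6.H63.NU

namespace CNTaux

theorem inner_nv (φ : ℝ) (x : Pl) :
    inner ℝ (nv φ) x = -Real.sin φ * x 0 + Real.cos φ * x 1 := by
  simp [nv, PiLp.inner_apply, Fin.sum_univ_two]
  ring

theorem inner_uv (φ : ℝ) (x : Pl) :
    inner ℝ (uv φ) x = Real.cos φ * x 0 + Real.sin φ * x 1 := by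
  simp [uv, PiLp.inner_apply, Fin.sum_univ_two]
  ring

theorem decomp (φ : ℝ) (x : Pl) :
    (inner ℝ (nv φ) x : ℝ) • nv φ + (inner ℝ (uv φ) x : ℝ) • uv φ = x := by
  ext i
  rw [inner_nv, inner_uv]
  have h := Real.sin_sq_add_cos_sq φ
  fin_cases i
  · simp [nv, uv]
    linear_combination (x 0) * h
  · simp [nv, uv]
    linear_combination (x 1) * h

theorem norm_sq_decomp (φ : ℝ) (x : Pl) :
    (inner ℝ (nv φ) x : ℝ) ^ 2 + (inner ℝ (uv φ) x : ℝ) ^ 2 = ‖x‖ ^ 2 := by
  rw [inner_nv, inner_uv, EuclideanSpace.norm_sq_eq, Fin.sum_univ_two]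
  simp only [Real.norm_eq_abs, sq_abs]
  have h := Real.sin_sq_add_cos_sq φ
  linear_combination (x 0 ^ 2 + x 1 ^ 2) * h

end CNTaux

open CNTaux

theorem cnt_ge : StmCNT := by
  classical
  intro f u R φ p hR hp ι A hdis hA
  have hpos : 0 < R ^ 2 - p ^ 2 := by
    have := sq_lt_sq' (by linarith [(abs_lt.mp hp).1]) (abs_lt.mp hp).2
    linarith
  have hcpos : 0 < hc R p := Real.sqrt_pos.mpr hpos
  have hcsq : hc R p ^ 2 = R ^ 2 - p ^ 2 := Real.sq_sqrt hpos.le
  set I : Set ι := {i | p ∈ (fun x : Pl => (inner ℝ (nv φ) x : ℝ)) '' (A i)} with hI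
  have hsum : ∑' i, ((fun x : Pl => (inner ℝ (nv φ) x : ℝ)) '' (A i)).indicator
      (fun _ => (1 : ℝ≥0∞)) p = ∑' i, I.indicator (fun _ => (1 : ℝ≥0∞)) i := by
    refine tsum_congr fun i => ?_
    by_cases hi : i ∈ I
    · rw [Set.indicator_of_mem hi, Set.indicator_of_mem (by exact hi)]
    · rw [Set.indicator_of_notMem hi, Set.indicator_of_notMem (by exact hi)]
  rw [hsum, ← tsum_subtype I (fun _ => (1 : ℝ≥0∞)), ENNReal.tsum_set_one]
  unfold cnt
  have hle : I.encard ≤ ({τ | τ ∈ Set.Ico (0 : ℝ) 1 ∧ f (pt R φ p τ) = u} : Set ℝ).encard := by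
    have hch : ∀ i : ι, ∃ y : Pl, i ∈ I → (y ∈ A i ∧ (inner ℝ (nv φ) y : ℝ) = p) := by
      intro i
      by_cases hi : i ∈ I
      · obtain ⟨y, hy, hyp⟩ := hi
        exact ⟨y, fun _ => ⟨hy, hyp⟩⟩
      · exact ⟨0, fun h => absurd h hi⟩
    choose y hy using hch
    have hpt : ∀ i ∈ I, pt R φ p (((inner ℝ (uv φ) (y i) : ℝ) / hc R p + 1) / 2) = y i := by
      intro i hi
      unfold pt
      have h1 : (2 * (((inner ℝ (uv φ) (y i) : ℝ) / hc R p + 1) / 2) - 1) * hc R p =
          inner ℝ (uv φ) (y i) := by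
        field_simp
        ring
      rw [h1]
      conv_rhs => rw [← decomp φ (y i)]
      rw [(hy i hi).2]
    refine Set.encard_le_encard_of_injOn
      (f := fun i => ((inner ℝ (uv φ) (y i) : ℝ) / hc R p + 1) / 2) ?_ ?_
    · intro i hi
      have hyi := hA i (hy i hi).1
      have hn : ‖y i‖ < R := by simpa using hyi.1
      have hsq := norm_sq_decomp φ (y i)
      rw [(hy i hi).2] at hsq
      have hlt : (inner ℝ (uv φ) (y i) : ℝ) ^ 2 < hc R p ^ 2 := by
        rw [hcsq]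
        have : ‖y i‖ ^ 2 < R ^ 2 := by
          have := norm_nonneg (y i)
          nlinarith
        linarith
      have habs : |(inner ℝ (uv φ) (y i) : ℝ)| < hc R p := abs_lt_of_sq_lt_sq hlt hcpos.le
      obtain ⟨h1, h2⟩ := abs_lt.mp habs
      refine ⟨⟨?_, ?_⟩, ?_⟩
      · have : -1 < (inner ℝ (uv φ) (y i) : ℝ) / hc R p := by
          rw [lt_div_iff₀ hcpos]; linarith
        linarith
      · have : (inner ℝ (uv φ) (y i) : ℝ) / hc R p < 1 := by
          rw [div_lt_one hcpos]; exact h2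
        linarith
      · show f (pt R φ p (((inner ℝ (uv φ) (y i) : ℝ) / hc R p + 1) / 2)) = u
        rw [hpt i hi]
        exact hyi.2
    · intro i hi j hj hij
      by_contra hne
      have h1 := hpt i hi
      have h2 := hpt j hj
      have hij' : ((inner ℝ (uv φ) (y i) : ℝ) / hc R p + 1) / 2 =
        ((inner ℝ (uv φ) (y j) : ℝ) / hc R p + 1) / 2 := hij
      rw [hij'] at h1
      have hyy : y i = y j := h1.symm.trans h2
      have := Set.disjoint_left.mp (hdis i j hne) (hy i hi).1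
      exact this (hyy ▸ (hy j hj).1)
  exact_mod_cast hle

end Pool.Agent.T6.H63.NU
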