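import Pool.Agent.T6.H63.NU.Defs

/-!
Project NU (helper63), MP_4fa179_mp: module DISC.
-/

set_option autoImplicit false
open MeasureTheory Filter Topology Metric
open scoped ContDiff ENNReal NNReal

namespace Pool.Agent.T6.H63.NU

noncomputable section

lemma int_hc {R : ℝ} (hR : 0 < R) : ∫ p in (-R)..R, hc R p = Real.pi / 2 * R ^ 2 := by
  have h := integral_sqrt_one_sub_sq
  have e : ∀ p, hc R p = R * √(1 - (p / R) ^ 2) := by
    intro p
    unfold hc
    rw [show R ^ 2 - p ^ 2 = R ^ 2 * (1 - (p / R) ^ 2) by field_simp,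
      Real.sqrt_mul (by positivity), Real.sqrt_sq hR.le]
  simp only [e]
  rw [intervalIntegral.integral_const_mul,
    intervalIntegral.integral_comp_div (fun x => √(1 - x ^ 2)) hR.ne']
  have e1 : -R / R = -1 := by field_simp
  have e2 : R / R = 1 := by field_simp
  rw [e1, e2, h, smul_eq_mul]
  ring

theorem disc : StmDISC := by
  intro R hR
  have c : Continuous fun p => 2 * hc R p / Real.pi := by
    unfold hc
    fun_prop
  have nn : ∀ p, 0 ≤ 2 * hc R p / Real.pi := fun p => by
    unfold hc
    positivity
  rw [← ofReal_integral_eq_lintegral_ofReal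
    ((c.integrableOn_Icc (a := -R) (b := R)).mono_set Set.Ioo_subset_Icc_self)
    (ae_of_all _ nn)]
  congr 1
  rw [← integral_Ioc_eq_integral_Ioo, ← intervalIntegral.integral_of_le (by linarith)]
  have : (fun p => 2 * hc R p / Real.pi) = fun p => (2 / Real.pi) * hc R p := by
    funext p; ring
  rw [this, intervalIntegral.integral_const_mul, int_hc hR]
  have := Real.pi_pos
  field_simp

end

end Pool.Agent.T6.H63.NU
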