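import Mathlib

/-!
Project NU (helper63), MP_4fa179_mp: upper bound for the mean nodal length of planar waves.
Definitions and statements of the modules.
-/

set_option autoImplicit false
open MeasureTheory Filter Topology Metric
open scoped ContDiff ENNReal

namespace Pool.Agent.T6.H63.NU

noncomputable section

/-- the Euclidean plane -/
abbrev Pl := EuclideanSpace ℝ (Fin 2)

/-- the unit vector `(cos φ, sin φ)` -/
def uv (φ : ℝ) : Pl := !₂[Real.cos φ, Real.sin φ]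

/-- the unit vector `(-sin φ, cos φ)` -/
def nv (φ : ℝ) : Pl := !₂[-Real.sin φ, Real.cos φ]

/-- half of the length of the chord of the disc of radius `R` at distance `|p|` from the centre -/
def hc (R p : ℝ) : ℝ := √(R ^ 2 - p ^ 2)

/-- the point of the line `⟨nv φ, x⟩ = p` with parameter `τ`; the parameters `(0,1)` give the chord
of the open disc of radius `R` -/
def pt (R φ p τ : ℝ) : Pl := p • nv φ + ((2 * τ - 1) * hc R p) • uv φ

/-- the number of the points of the chord (with one of the end points) at the level `u` -/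
def cnt (f : Pl → ℝ) (u R φ p : ℝ) : ℝ≥0∞ :=
  (({τ | τ ∈ Set.Ico (0 : ℝ) 1 ∧ f (pt R φ p τ) = u} : Set ℝ).encard : ℝ≥0∞)

/-- the Laplacian -/
def laplacian (f : Pl → ℝ) (y : Pl) : ℝ :=
  ∑ i, fderiv ℝ (fun z => fderiv ℝ f z (EuclideanSpace.single i 1)) y (EuclideanSpace.single i 1)

/-- the half-open dyadic square with index `(i, j)` and side `2⁻ᵐ` -/
def sq (m : ℕ) (i j : ℤ) : Set Pl :=
  {x | (i : ℝ) ≤ 2 ^ m * x 0 ∧ 2 ^ m * x 0 < i + 1 ∧ (j : ℝ) ≤ 2 ^ m * x 1 ∧ 2 ^ m * x 1 < j + 1}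

/-- `A` is `η`-flat: all secants are almost orthogonal to one unit vector `nv ψ` -/
def Flat (η : ℝ) (A : Set Pl) : Prop :=
  ∃ ψ : ℝ, ∀ y ∈ A, ∀ z ∈ A, |inner ℝ (nv ψ) (y - z)| ≤ η * ‖y - z‖

/-- MEAS: the number of points at a level is measurable -/
def StmMEAS.{v} : Prop := ∀ (S : Type v) (_ : MeasurableSpace S) (X : S → ℝ → ℝ),
    (∀ t, Measurable fun s => X s t) → (∀ s, Continuous (X s)) → ∀ u : ℝ,
    Measurable (fun s => (({t | t ∈ Set.Ico (0 : ℝ) 1 ∧ X s t = u} : Set ℝ).encard : ℝ≥0∞)) ∧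
      MeasurableSet {s | ∃ t, X s t ≠ u}

/-- TRIG: the mean of `|sin|` over `K` equidistributed directions -/
def StmTRIG : Prop := ∀ (ψ : ℝ) (K : ℕ), 0 < K →
    2 / Real.pi - Real.pi / K ≤ (∑ k ∈ Finset.range K, |Real.sin (ψ - Real.pi * k / K)|) / K

/-- LIP: in a flat set the coordinate `⟨nv φ, x⟩` is expanding -/
def StmLIP : Prop := ∀ (η ψ φ : ℝ), 0 ≤ η → η < 1 → ∀ v : Pl,
    |inner ℝ (nv ψ) v| ≤ η * ‖v‖ →
    (|Real.sin (ψ - φ)| * √(1 - η ^ 2) - η) * ‖v‖ ≤ |inner ℝ (nv φ) v|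

/-- PROJ: measure of the projection of a set on which a coordinate is expanding -/
def StmPROJ : Prop := ∀ (c φ : ℝ), 0 < c → ∀ A : Set Pl, MeasurableSet A →
    (∀ y ∈ A, ∀ z ∈ A, c * ‖y - z‖ ≤ |inner ℝ (nv φ) (y - z)|) →
    MeasurableSet ((fun x : Pl => inner ℝ (nv φ) x) '' A) ∧
      ENNReal.ofReal c * μH[1] A ≤ volume ((fun x : Pl => inner ℝ (nv φ) x) '' A)

/-- CNT: disjoint pieces of the level set give different points of the chord -/
def StmCNT : Prop := ∀ (f : Pl → ℝ) (u R φ p : ℝ), 0 < R → |p| < R →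
    ∀ (ι : Type) (A : ι → Set Pl), (∀ i j, i ≠ j → Disjoint (A i) (A j)) →
    (∀ i, A i ⊆ {x | x ∈ ball (0 : Pl) R ∧ f x = u}) →
    ∑' i, ((fun x : Pl => inner ℝ (nv φ) x) '' (A i)).indicator (fun _ => (1 : ℝ≥0∞)) p ≤
      cnt f u R φ p

/-- SQR: the dyadic squares of one level form a partition of the plane into measurable sets,
each square of level `m + 1` lies in a square of level `m`, and near a regular point of a level set
all small squares are flat -/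
def StmSQR : Prop :=
    (∀ m i j, MeasurableSet (sq m i j)) ∧
    (∀ m i j i' j', (i, j) ≠ (i', j') → Disjoint (sq m i j) (sq m i' j')) ∧
    (∀ m x, ∃ i j, x ∈ sq m i j) ∧
    (∀ m i j, ∃ i' j', sq (m + 1) i j ⊆ sq m i' j') ∧
    (∀ (f : Pl → ℝ) (u : ℝ), ContDiff ℝ 1 f → ∀ x, f x = u → fderiv ℝ f x ≠ 0 →
      ∀ η : ℝ, 0 < η → ∃ m₀ : ℕ, ∀ m ≥ m₀, ∀ i j, x ∈ sq m i j →
        Flat η ({y | f y = u} ∩ sq m i j))

/-- GEO: Crofton-type inequality with finitely many directions -/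
def StmGEO : Prop := ∀ (f : Pl → ℝ), ContDiff ℝ 1 f → ∀ (u R : ℝ), 0 < R →
    ∀ K : ℕ, 0 < K → ∀ η : ℝ, 0 < η → η < 1 →
    ENNReal.ofReal (K * ((2 / Real.pi - Real.pi / K) * √(1 - η ^ 2) - η)) *
        μH[1] {x | x ∈ ball (0 : Pl) R ∧ f x = u ∧ fderiv ℝ f x ≠ 0} ≤
      ∑ k ∈ Finset.range K, ∫⁻ p in Set.Ioo (-R) R, cnt f u R (Real.pi * k / K) p

/-- ZERO: a wave which is flat at one point vanishes identically -/
def StmZERO : Prop := ∀ f : Pl → ℝ, ContDiff ℝ ∞ f → (∀ y, laplacian f y + f y = 0) →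
    ∀ z : Pl, (∀ n : ℕ, iteratedFDeriv ℝ n f z = 0) → ∀ x, f x = 0

/-- SNG: the singular zeros of a wave are countable -/
def StmSNG : Prop := ∀ f : Pl → ℝ, ContDiff ℝ ∞ f → (∀ y, laplacian f y + f y = 0) →
    (∃ x, f x ≠ 0) → {x | f x = 0 ∧ fderiv ℝ f x = 0}.Countable

/-- BAD: only countably many parallel lines lie in a level set of a wave -/
def StmBAD : Prop := ∀ f : Pl → ℝ, ContDiff ℝ ∞ f → (∀ y, laplacian f y + f y = 0) →
    ∀ u : ℝ, (∃ x, f x ≠ u) → ∀ φ : ℝ,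
    {p : ℝ | ∀ t : ℝ, f (p • nv φ + t • uv φ) = u}.Countable

/-- DISC: the area of the disc -/
def StmDISC : Prop := ∀ R : ℝ, 0 < R →
    ∫⁻ p in Set.Ioo (-R) R, ENNReal.ofReal (2 * hc R p / Real.pi) = ENNReal.ofReal (R ^ 2)

end

end Pool.Agent.T6.H63.NU
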