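import Mathlib
import Pool.Agent.T6.H63.NU.Defs

/-!
Project NU (helper63), module GEO (helper43): Crofton-type inequality with finitely many
directions.
-/

set_option autoImplicit false
open MeasureTheory Filter Topology Metric
open scoped ContDiff ENNReal

namespace Pool.Agent.T6.H63.NU

namespace ModGEO

/-- the projection of `A` on the direction `nv φ` -/
def P (φ : ℝ) (A : Set Pl) : Set ℝ := (fun x : Pl => inner ℝ (nv φ) x) '' A

lemma norm_nv (φ : ℝ) : ‖nv φ‖ = 1 := by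
  rw [EuclideanSpace.norm_eq]
  simp [nv, Fin.sum_univ_two]

lemma sum_bound (hT : StmTRIG) (ψ η : ℝ) (K : ℕ) (hK : 0 < K) :
    K * ((2 / Real.pi - Real.pi / K) * √(1 - η ^ 2) - η) ≤
      ∑ k ∈ Finset.range K, (|Real.sin (ψ - Real.pi * k / K)| * √(1 - η ^ 2) - η) := by
  have h := hT ψ K hK
  have hK' : (0 : ℝ) < K := by exact_mod_cast hK
  rw [le_div_iff₀ hK'] at h
  rw [Finset.sum_sub_distrib, ← Finset.sum_mul]
  simp only [Finset.sum_const, Finset.card_range, nsmul_eq_mul]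
  have := mul_le_mul_of_nonneg_right h (Real.sqrt_nonneg (1 - η ^ 2))
  nlinarith [this]

lemma ofReal_sum_le (K : ℕ) (c : ℕ → ℝ) :
    ENNReal.ofReal (∑ k ∈ Finset.range K, c k) ≤
      ∑ k ∈ Finset.range K, ENNReal.ofReal (c k) := by
  calc ENNReal.ofReal (∑ k ∈ Finset.range K, c k)
      ≤ ENNReal.ofReal (∑ k ∈ Finset.range K, max (c k) 0) :=
        ENNReal.ofReal_le_ofReal (Finset.sum_le_sum fun k _ => le_max_left _ _)
    _ = ∑ k ∈ Finset.range K, ENNReal.ofReal (max (c k) 0) :=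
        ENNReal.ofReal_sum_of_nonneg fun k _ => le_max_right _ _
    _ = ∑ k ∈ Finset.range K, ENNReal.ofReal (c k) := by
        refine Finset.sum_congr rfl fun k _ => ?_
        rcases le_total (c k) 0 with h | h
        · rw [max_eq_right h, ENNReal.ofReal_zero, ENNReal.ofReal_of_nonpos h]
        · rw [max_eq_left h]

/-- one flat piece -/
lemma piece (hT : StmTRIG) (hL : StmLIP) (hP : StmPROJ) (K : ℕ) (hK : 0 < K) (η : ℝ)
    (h0 : 0 < η) (h1 : η < 1) (A : Set Pl) (hA : MeasurableSet A) (hF : Flat η A) :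
    ∃ B : ℕ → Set ℝ, (∀ k, MeasurableSet (B k)) ∧
      (∀ k, B k ⊆ P (Real.pi * k / K) A) ∧
      ENNReal.ofReal (K * ((2 / Real.pi - Real.pi / K) * √(1 - η ^ 2) - η)) * μH[1] A ≤
        ∑ k ∈ Finset.range K, volume (B k) := by
  classical
  obtain ⟨ψ, hψ⟩ := hF
  set c : ℕ → ℝ := fun k => |Real.sin (ψ - Real.pi * k / K)| * √(1 - η ^ 2) - η with hc
  have key : ∀ k : ℕ, ∀ y ∈ A, ∀ z ∈ A,
      c k * ‖y - z‖ ≤ |inner ℝ (nv (Real.pi * k / K)) (y - z)| := by
    intro k y hy z hz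
    exact hL η ψ (Real.pi * k / K) h0.le h1 (y - z) (hψ y hy z hz)
  refine ⟨fun k => if 0 < c k then P (Real.pi * k / K) A else ∅, ?_, ?_, ?_⟩
  · intro k
    by_cases hk : 0 < c k
    · simp only [hk, if_true]
      exact (hP (c k) (Real.pi * k / K) hk A hA (key k)).1
    · simp only [hk, if_false]
      exact MeasurableSet.empty
  · intro k
    by_cases hk : 0 < c k
    · simp only [hk, if_true]; exact subset_rfl
    · simp only [hk, if_false]; exact Set.empty_subset _
  · calc ENNReal.ofReal (K * ((2 / Real.pi - Real.pi / K) * √(1 - η ^ 2) - η)) * μH[1] A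
        ≤ ENNReal.ofReal (∑ k ∈ Finset.range K, c k) * μH[1] A := by
          gcongr
          exact sum_bound hT ψ η K hK
      _ ≤ (∑ k ∈ Finset.range K, ENNReal.ofReal (c k)) * μH[1] A := by
          gcongr
          exact ofReal_sum_le K c
      _ = ∑ k ∈ Finset.range K, ENNReal.ofReal (c k) * μH[1] A := by
          rw [Finset.sum_mul]
      _ ≤ _ := by
          refine Finset.sum_le_sum fun k _ => ?_
          by_cases hk : 0 < c k
          · simp only [hk, if_true]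
            exact (hP (c k) (Real.pi * k / K) hk A hA (key k)).2
          · simp only [hk, if_false]
            rw [ENNReal.ofReal_of_nonpos (not_lt.1 hk), zero_mul]
            exact zero_le'

/-- the pieces of level `m` -/
def Ap (f : Pl → ℝ) (u R η : ℝ) (m : ℕ) (q : ℤ × ℤ) : Set Pl :=
  {x | x ∈ ball (0 : Pl) R ∧ f x = u ∧ x ∈ sq m q.1 q.2 ∧ Flat η ({y | f y = u} ∩ sq m q.1 q.2)}

lemma Flat.mono {η : ℝ} {A B : Set Pl} (h : Flat η B) (hAB : A ⊆ B) : Flat η A := by
  obtain ⟨ψ, hψ⟩ := h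
  exact ⟨ψ, fun y hy z hz => hψ y (hAB hy) z (hAB hz)⟩

lemma Flat.empty {η : ℝ} : Flat η (∅ : Set Pl) := ⟨0, fun y hy => absurd hy (Set.notMem_empty y)⟩

lemma Ap_flat (f : Pl → ℝ) (u R η : ℝ) (m : ℕ) (q : ℤ × ℤ) : Flat η (Ap f u R η m q) := by
  by_cases h : Flat η ({y | f y = u} ∩ sq m q.1 q.2)
  · exact Flat.mono h fun x hx => ⟨hx.2.1, hx.2.2.1⟩
  · have : Ap f u R η m q = ∅ := by
      ext x
      simp only [Ap, Set.mem_setOf_eq, Set.mem_empty_iff_false, iff_false]
      exact fun hx => h hx.2.2.2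
    rw [this]
    exact Flat.empty

lemma Ap_meas (hS : StmSQR) (f : Pl → ℝ) (hf : Continuous f) (u R η : ℝ) (m : ℕ) (q : ℤ × ℤ) :
    MeasurableSet (Ap f u R η m q) := by
  by_cases h : Flat η ({y | f y = u} ∩ sq m q.1 q.2)
  · have : Ap f u R η m q = (ball (0 : Pl) R ∩ {x | f x = u}) ∩ sq m q.1 q.2 := by
      ext x
      simp only [Ap, Set.mem_setOf_eq, Set.mem_inter_iff]
      tauto
    rw [this]
    exact (measurableSet_ball.inter (isClosed_eq hf continuous_const).measurableSet).inter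
      (hS.1 m q.1 q.2)
  · have : Ap f u R η m q = ∅ := by
      ext x
      simp only [Ap, Set.mem_setOf_eq, Set.mem_empty_iff_false, iff_false]
      exact fun hx => h hx.2.2.2
    rw [this]
    exact MeasurableSet.empty

lemma Ap_disj (hS : StmSQR) (f : Pl → ℝ) (u R η : ℝ) (m : ℕ) (q q' : ℤ × ℤ) (h : q ≠ q') :
    Disjoint (Ap f u R η m q) (Ap f u R η m q') := by
  refine Set.disjoint_left.2 fun x hx hx' => ?_
  exact Set.disjoint_left.1 (hS.2.1 m q.1 q.2 q'.1 q'.2 h) hx.2.2.1 hx'.2.2.1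

/-- the inequality for the union of the pieces of one level -/
lemma level (hT : StmTRIG) (hL : StmLIP) (hP : StmPROJ) (hC : StmCNT) (hS : StmSQR)
    (f : Pl → ℝ) (hf : Continuous f) (u R : ℝ) (hR : 0 < R) (K : ℕ) (hK : 0 < K) (η : ℝ)
    (h0 : 0 < η) (h1 : η < 1) (m : ℕ) :
    ENNReal.ofReal (K * ((2 / Real.pi - Real.pi / K) * √(1 - η ^ 2) - η)) *
        μH[1] (⋃ q, Ap f u R η m q) ≤
      ∑ k ∈ Finset.range K, ∫⁻ p in Set.Ioo (-R) R, cnt f u R (Real.pi * k / K) p := by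
  classical
  have hp := fun q : ℤ × ℤ => piece hT hL hP K hK η h0 h1 (Ap f u R η m q)
    (Ap_meas hS f hf u R η m q) (Ap_flat f u R η m q)
  choose B hBm hBs hB using hp
  set C := ENNReal.ofReal (K * ((2 / Real.pi - Real.pi / K) * √(1 - η ^ 2) - η)) with hCdef
  have hsub : ∀ q k, B q k ⊆ Set.Ioo (-R) R := by
    intro q k p hp
    obtain ⟨x, hx, rfl⟩ := hBs q k hp
    have hx1 : ‖x‖ < R := by simpa using hx.1
    have h2 : |inner ℝ (nv (Real.pi * k / K)) x| ≤ ‖x‖ := by
      have := abs_real_inner_le_norm (nv (Real.pi * k / K)) x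
      rwa [norm_nv, one_mul] at this
    exact abs_lt.1 (lt_of_le_of_lt h2 hx1)
  calc C * μH[1] (⋃ q, Ap f u R η m q)
      ≤ C * ∑' q, μH[1] (Ap f u R η m q) := by
        gcongr
        exact measure_iUnion_le _
    _ = ∑' q, C * μH[1] (Ap f u R η m q) := ENNReal.tsum_mul_left.symm
    _ ≤ ∑' q, ∑ k ∈ Finset.range K, volume (B q k) := ENNReal.tsum_le_tsum hB
    _ = ∑ k ∈ Finset.range K, ∑' q, volume (B q k) :=
        Summable.tsum_finsetSum fun k _ => ENNReal.summable
    _ ≤ ∑ k ∈ Finset.range K, ∫⁻ p in Set.Ioo (-R) R, cnt f u R (Real.pi * k / K) p := by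
        refine Finset.sum_le_sum fun k _ => ?_
        have e : ∀ q, volume (B q k) =
            ∫⁻ p in Set.Ioo (-R) R, (B q k).indicator (fun _ => (1 : ℝ≥0∞)) p := by
          intro q
          rw [lintegral_indicator (hBm q k), Measure.restrict_restrict (hBm q k),
            Set.inter_eq_left.2 (hsub q k), setLIntegral_const, one_mul]
        rw [tsum_congr e, ← lintegral_tsum (fun q => (measurable_const.indicator
          (hBm q k)).aemeasurable)]
        refine setLIntegral_mono' measurableSet_Ioo fun p hp => ?_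
        have hpR : |p| < R := abs_lt.2 hp
        refine le_trans ?_ (hC f u R (Real.pi * k / K) p hR hpR (ℤ × ℤ) (Ap f u R η m)
          (fun q q' h => Ap_disj hS f u R η m q q' h) (fun q x hx => ⟨hx.1, hx.2.1⟩))
        refine ENNReal.tsum_le_tsum fun q => ?_
        exact Set.indicator_le_indicator_of_subset (hBs q k) (fun _ => zero_le') p

end ModGEO

open ModGEO in
theorem geo (hT : StmTRIG) (hL : StmLIP) (hP : StmPROJ) (hC : StmCNT) (hS : StmSQR) :
    StmGEO := by
  intro f hf u R hR K hK η h0 h1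
  have hfc : Continuous f := hf.continuous
  set C := ENNReal.ofReal (K * ((2 / Real.pi - Real.pi / K) * √(1 - η ^ 2) - η)) with hCdef
  set G : ℕ → Set Pl := fun m => ⋃ q, Ap f u R η m q with hG
  have hmono : Monotone G := by
    refine monotone_nat_of_le_succ fun m => ?_
    intro x hx
    obtain ⟨q, hq⟩ := Set.mem_iUnion.1 hx
    obtain ⟨i', j', hx'⟩ := hS.2.2.1 (m + 1) x
    obtain ⟨i'', j'', hss⟩ := hS.2.2.2.1 m i' j'
    have hx'' := hss hx'
    have heq : (q.1, q.2) = (i'', j'') := by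
      by_contra hne
      exact Set.disjoint_left.1 (hS.2.1 m q.1 q.2 i'' j'' hne) hq.2.2.1 hx''
    have h1' : q.1 = i'' := congrArg Prod.fst heq
    have h2' : q.2 = j'' := congrArg Prod.snd heq
    refine Set.mem_iUnion.2 ⟨(i', j'), hq.1, hq.2.1, hx', ?_⟩
    refine Flat.mono hq.2.2.2 ?_
    rw [h1', h2']
    exact Set.inter_subset_inter_right _ hss
  have hsub : {x | x ∈ ball (0 : Pl) R ∧ f x = u ∧ fderiv ℝ f x ≠ 0} ⊆ ⋃ m, G m := by
    rintro x ⟨hx, hxu, hxd⟩
    obtain ⟨m₀, hm₀⟩ := hS.2.2.2.2 f u hf x hxu hxd η h0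
    obtain ⟨i, j, hij⟩ := hS.2.2.1 m₀ x
    exact Set.mem_iUnion.2 ⟨m₀, Set.mem_iUnion.2 ⟨(i, j), hx, hxu, hij, hm₀ m₀ le_rfl i j hij⟩⟩
  calc C * μH[1] {x | x ∈ ball (0 : Pl) R ∧ f x = u ∧ fderiv ℝ f x ≠ 0}
      ≤ C * μH[1] (⋃ m, G m) := by
        gcongr
    _ = ⨆ m, C * μH[1] (G m) := by
        rw [hmono.measure_iUnion, ENNReal.mul_iSup]
    _ ≤ _ := iSup_le fun m => level hT hL hP hC hS f hfc u R hR K hK η h0 h1 m

end Pool.Agent.T6.H63.NU
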