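import Pool.Agent.T6.H63.NU.Defs

/-!
Project NU (helper63), MP_4fa179_mp: module LIP.
-/

set_option autoImplicit false
open MeasureTheory Filter Topology Metric
open scoped ContDiff ENNReal

namespace Pool.Agent.T6.H63.NU

noncomputable section

lemma inner_nv (φ : ℝ) (v : Pl) : inner ℝ (nv φ) v = -Real.sin φ * v 0 + Real.cos φ * v 1 := by
  unfold nv
  simp [PiLp.inner_apply, Fin.sum_univ_two, mul_comm]

lemma normsq (v : Pl) : ‖v‖ ^ 2 = v 0 ^ 2 + v 1 ^ 2 := by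
  rw [EuclideanSpace.norm_sq_eq]
  simp [Fin.sum_univ_two]

theorem lip : StmLIP := by
  intro η ψ φ h0 h1 v hv
  rw [inner_nv] at hv ⊢
  obtain ⟨a, ha⟩ : ∃ a : ℝ, a = -Real.sin ψ * v 0 + Real.cos ψ * v 1 := ⟨_, rfl⟩
  obtain ⟨b, hb⟩ : ∃ b : ℝ, b = Real.cos ψ * v 0 + Real.sin ψ * v 1 := ⟨_, rfl⟩
  have cs := Real.sin_sq_add_cos_sq ψ
  have nn : ‖v‖ ^ 2 = a ^ 2 + b ^ 2 := by
    rw [normsq, ha, hb]
    have : v 0 ^ 2 + v 1 ^ 2 = (Real.sin ψ ^ 2 + Real.cos ψ ^ 2) * (v 0 ^ 2 + v 1 ^ 2) := by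
      rw [cs, one_mul]
    rw [this]; ring
  have e : -Real.sin φ * v 0 + Real.cos φ * v 1 =
      Real.cos (ψ - φ) * a + Real.sin (ψ - φ) * b := by
    rw [ha, hb, Real.cos_sub, Real.sin_sub]
    have : -Real.sin φ * v 0 + Real.cos φ * v 1 =
        (Real.sin ψ ^ 2 + Real.cos ψ ^ 2) * (-Real.sin φ * v 0 + Real.cos φ * v 1) := by
      rw [cs, one_mul]
    rw [this]; ring
  rw [← ha] at hv
  rw [e]
  have n0 := norm_nonneg v
  have hb1 : √(1 - η ^ 2) * ‖v‖ ≤ |b| := by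
    have h2 : (√(1 - η ^ 2) * ‖v‖) ^ 2 ≤ |b| ^ 2 := by
      rw [mul_pow, Real.sq_sqrt (by nlinarith), sq_abs]
      have : a ^ 2 ≤ (η * ‖v‖) ^ 2 := by
        rw [← sq_abs a]
        exact pow_le_pow_left₀ (abs_nonneg _) hv 2
      nlinarith
    exact (abs_le_of_sq_le_sq' h2 (abs_nonneg _)).2
  have h3 : |Real.sin (ψ - φ) * b| - |Real.cos (ψ - φ) * a| ≤
      |Real.cos (ψ - φ) * a + Real.sin (ψ - φ) * b| := by
    have := abs_sub_abs_le_abs_sub (Real.sin (ψ - φ) * b) (-(Real.cos (ψ - φ) * a))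
    rw [abs_neg] at this
    rw [show Real.cos (ψ - φ) * a + Real.sin (ψ - φ) * b =
      Real.sin (ψ - φ) * b - -(Real.cos (ψ - φ) * a) by ring]
    exact this
  rw [abs_mul, abs_mul] at h3
  have h4 : |Real.cos (ψ - φ)| * |a| ≤ η * ‖v‖ := by
    calc |Real.cos (ψ - φ)| * |a| ≤ 1 * |a| :=
          mul_le_mul_of_nonneg_right (Real.abs_cos_le_one _) (abs_nonneg _)
      _ = |a| := one_mul _
      _ ≤ _ := hv
  have h5 : |Real.sin (ψ - φ)| * (√(1 - η ^ 2) * ‖v‖) ≤ |Real.sin (ψ - φ)| * |b| :=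
    mul_le_mul_of_nonneg_left hb1 (abs_nonneg _)
  nlinarith

end

end Pool.Agent.T6.H63.NU
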