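import Pool.Agent.T6.H63.NU.Defs
import Pool.Agent.T6.H63.ZC.Fi

/-!
Project NU (helper63), MP_4fa179_mp: module MEAS.
-/

set_option autoImplicit false
open MeasureTheory Filter Topology Metric
open scoped ContDiff ENNReal

namespace Pool.Agent.T6.H63.NU

noncomputable section

open Pool.Agent.T6.H63.ZC

universe v

theorem meas : StmMEAS.{v} := by
  intro S _ X mX cX u
  refine ⟨?_, ZC.meas_ne (F := X) cX mX u⟩
  obtain ⟨L, hL⟩ : ∃ L : S → Set ℝ, L = fun s => {t | t ∈ Set.Ico (0 : ℝ) 1 ∧ X s t = u} :=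
    ⟨_, rfl⟩
  have e : (fun s => (({t | t ∈ Set.Ico (0 : ℝ) 1 ∧ X s t = u} : Set ℝ).encard : ℝ≥0∞)) =
      fun s => liminf (fun n => Nn (L s) 1 n) atTop := by
    funext s
    rw [hL]
    exact encard_eq_liminf one_pos fun t ht => ht.1
  rw [e]
  refine Measurable.liminf fun n => ?_
  obtain ⟨Z, hZ⟩ : ∃ Z : ℕ → Set S, Z = fun (j : ℕ) => {s | ∃ t ∈ Set.Ico ((j : ℝ) * (1 / 2 ^ n))
      (((j : ℝ) + 1) * (1 / 2 ^ n)), X s t = u} := ⟨_, rfl⟩
  have mZ : ∀ j, MeasurableSet (Z j) := fun j => by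
    rw [hZ]; exact ZC.meas_Ico (F := X) cX mX u _ _
  have e2 : (fun s => Nn (L s) 1 n) = fun s => ∑ j ∈ Finset.range (2 ^ n),
      (Z j).indicator (fun _ => (1 : ℝ≥0∞)) s := by
    funext s
    unfold Nn nc
    refine Finset.sum_congr rfl fun j hj => ?_
    have hj' : ((j : ℝ) + 1) ≤ 2 ^ n := by exact_mod_cast Finset.mem_range.1 hj
    have : (L s ∩ Set.Ico ((j : ℝ) * (1 / 2 ^ n)) (((j : ℝ) + 1) * (1 / 2 ^ n))).Nonempty ↔
        s ∈ Z j := by
      rw [hL, hZ]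
      constructor
      · rintro ⟨t, h1, h2⟩
        exact ⟨t, h2, h1.2⟩
      · rintro ⟨t, h2, h1⟩
        refine ⟨t, ⟨⟨le_trans (by positivity) h2.1, lt_of_lt_of_le h2.2 ?_⟩, h1⟩, h2⟩
        calc ((j : ℝ) + 1) * (1 / 2 ^ n) ≤ 2 ^ n * (1 / 2 ^ n) :=
              mul_le_mul_of_nonneg_right hj' (by positivity)
          _ = 1 := by field_simp
    by_cases h : s ∈ Z j
    · rw [Set.indicator_of_mem h, Set.indicator_of_mem (by exact this.2 h)]
    · rw [Set.indicator_of_notMem h, Set.indicator_of_notMem (by exact fun h' => h (this.1 h'))]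
  rw [e2]
  exact Finset.measurable_fun_sum _ fun j _ => measurable_const.indicator (mZ j)

end

end Pool.Agent.T6.H63.NU
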