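import Pool.Agent.T6.H63.NU.Defs

/-!
Project NU (helper63), MP_4fa179_mp: module PROJ.
-/

set_option autoImplicit false
open MeasureTheory Filter Topology Metric
open scoped ContDiff ENNReal NNReal

namespace Pool.Agent.T6.H63.NU

noncomputable section

theorem proj : StmPROJ := by
  intro c φ hc A mA hA
  obtain ⟨q, hq⟩ : ∃ q : Pl → ℝ, q = fun x => inner ℝ (nv φ) x := ⟨_, rfl⟩
  rw [← hq]
  have cq : Continuous q := by rw [hq]; fun_prop
  have hA' : ∀ y ∈ A, ∀ z ∈ A, c * ‖y - z‖ ≤ |q y - q z| := by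
    intro y hy z hz
    have := hA y hy z hz
    rw [inner_sub_right] at this
    rw [hq]
    exact this
  have inj : Set.InjOn q A := by
    intro y hy z hz h
    have := hA' y hy z hz
    rw [h, sub_self, abs_zero] at this
    have h2 : ‖y - z‖ ≤ 0 := by
      by_contra hcon
      push Not at hcon
      have : 0 < c * ‖y - z‖ := mul_pos hc hcon
      linarith
    exact sub_eq_zero.1 (norm_le_zero_iff.1 h2)
  refine ⟨mA.image_of_continuousOn_injOn cq.continuousOn inj, ?_⟩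
  rcases A.eq_empty_or_nonempty with rfl | ⟨y0, hy0⟩
  · simp
  have : Nonempty Pl := ⟨y0⟩
  obtain ⟨g, hg⟩ : ∃ g : ℝ → Pl, g = Function.invFunOn q A := ⟨_, rfl⟩
  have gq : ∀ y ∈ A, g (q y) = y := by
    intro y hy
    rw [hg]
    exact inj.leftInvOn_invFunOn hy
  obtain ⟨L, hL⟩ : ∃ L : ℝ≥0, (L : ℝ) = c⁻¹ := ⟨⟨c⁻¹, by positivity⟩, rfl⟩
  have lip : LipschitzOnWith L g (q '' A) := by
    refine LipschitzOnWith.of_dist_le_mul ?_
    rintro _ ⟨y, hy, rfl⟩ _ ⟨z, hz, rfl⟩
    rw [gq y hy, gq z hz, dist_eq_norm, Real.dist_eq]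
    rw [hL]
    rw [inv_mul_eq_div, le_div_iff₀ hc, mul_comm]
    exact hA' y hy z hz
  have im : g '' (q '' A) = A := by
    rw [Set.image_image]
    ext y
    constructor
    · rintro ⟨z, hz, rfl⟩
      show g (q z) ∈ A
      rw [gq z hz]; exact hz
    · intro hy
      exact ⟨y, hy, gq y hy⟩
  have h1 := lip.hausdorffMeasure_image_le (d := 1) (by norm_num)
  rw [im] at h1
  have h2 : (μH[1] : Measure ℝ) = volume := hausdorffMeasure_real
  rw [h2] at h1
  have h3 : (L : ℝ≥0∞) ^ (1 : ℝ) = (ENNReal.ofReal c)⁻¹ := by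
    rw [ENNReal.rpow_one, ← ENNReal.ofReal_inv_of_pos hc, ← hL, ENNReal.ofReal_coe_nnreal]
  rw [h3] at h1
  calc ENNReal.ofReal c * μH[1] A ≤ ENNReal.ofReal c * ((ENNReal.ofReal c)⁻¹ * volume (q '' A)) := by
        gcongr
    _ = volume (q '' A) := by
        rw [← mul_assoc, ENNReal.mul_inv_cancel, one_mul]
        · rw [ne_eq, ENNReal.ofReal_eq_zero, not_le]; exact hc
        · exact ENNReal.ofReal_ne_top

end

end Pool.Agent.T6.H63.NU
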