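import Pool.Agent.T6.H63.NU.ZERO
import Pool.Agent.T6.H85.NL.SING

/-!
Project NU (helper63), MP_4fa179_mp, module SNG.
-/

set_option autoImplicit false
open MeasureTheory Filter Topology Metric
open scoped ContDiff ENNReal

namespace Pool.Agent.T6.H63.NU

open ZEROaux Pool.Agent.T6.H85.NL in
/-- SNG (the hypothesis is not needed: the strong unique continuation is used directly) -/
theorem sng (_hZ : StmZERO) : StmSNG := by
  intro f hf hlap hne
  have hlap' : ∀ y, lap f y + f y = 0 := by
    intro y
    have h := hlap y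
    unfold laplacian at h
    rw [Fin.sum_univ_two] at h
    exact h
  have hall : ∀ z, ∃ l, dl l f z ≠ 0 := by
    intro z
    by_contra hcon
    push Not at hcon
    obtain ⟨x, hx⟩ := hne
    exact hx (zero_of_dl hf hlap hcon x)
  have hcov : {x | f x = 0 ∧ fderiv ℝ f x = 0} ⊆
      ⋃ n : ℕ, {x | x ∈ ball (0 : Pl) n ∧ f x = 0 ∧ fderiv ℝ f x = 0} := by
    intro x hx
    obtain ⟨n, hn⟩ := exists_nat_gt ‖x‖
    exact Set.mem_iUnion.mpr ⟨n, by simpa using hn, hx⟩
  refine Set.Countable.mono hcov (Set.countable_iUnion fun n => ?_)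
  refine sing (0 : Pl) n (fun _ => 1) f ⟨hf.contDiffOn, contDiffOn_const, fun y _ => ?_⟩
    fun z _ => hall z
  have := hlap' y
  simpa using this

end Pool.Agent.T6.H63.NU
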