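import Pool.Agent.T6.H63.NU.Defs

/-! Module SQR of project NU (helper63). -/

set_option autoImplicit false
open MeasureTheory Filter Topology Metric
open scoped ContDiff ENNReal

namespace Pool.Agent.T6.H63.NU

namespace ModSQR

theorem meas (m : ℕ) (i j : ℤ) : MeasurableSet (sq m i j) := by
  have h0 : Measurable (fun x : Pl => (2:ℝ) ^ m * x 0) := by fun_prop
  have h1 : Measurable (fun x : Pl => (2:ℝ) ^ m * x 1) := by fun_prop
  exact (measurableSet_le measurable_const h0).inter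
    ((measurableSet_lt h0 measurable_const).inter
      ((measurableSet_le measurable_const h1).inter (measurableSet_lt h1 measurable_const)))

theorem floors {m : ℕ} {i j : ℤ} {x : Pl} (hx : x ∈ sq m i j) :
    ⌊(2:ℝ) ^ m * x 0⌋ = i ∧ ⌊(2:ℝ) ^ m * x 1⌋ = j := by
  obtain ⟨h1, h2, h3, h4⟩ := hx
  exact ⟨Int.floor_eq_iff.2 ⟨h1, h2⟩, Int.floor_eq_iff.2 ⟨h3, h4⟩⟩

theorem disj (m : ℕ) (i j i' j' : ℤ) (h : (i, j) ≠ (i', j')) :
    Disjoint (sq m i j) (sq m i' j') := by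
  rw [Set.disjoint_left]
  intro x hx hx'
  apply h
  have a := floors hx
  have b := floors hx'
  rw [← a.1, ← a.2, ← b.1, ← b.2]

theorem cover (m : ℕ) (x : Pl) : ∃ i j, x ∈ sq m i j :=
  ⟨⌊(2:ℝ) ^ m * x 0⌋, ⌊(2:ℝ) ^ m * x 1⌋, Int.floor_le _, Int.lt_floor_add_one _,
    Int.floor_le _, Int.lt_floor_add_one _⟩

theorem half (m : ℕ) (i : ℤ) (t : ℝ) (h1 : (i : ℝ) ≤ 2 ^ (m + 1) * t)
    (h2 : 2 ^ (m + 1) * t < i + 1) :
    ((i / 2 : ℤ) : ℝ) ≤ 2 ^ m * t ∧ 2 ^ m * t < ((i / 2 : ℤ) : ℝ) + 1 := by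
  have e1 : 2 * (i / 2) ≤ i := by omega
  have e2 : i + 1 ≤ 2 * (i / 2) + 2 := by omega
  have e1' : (2 : ℝ) * ((i / 2 : ℤ) : ℝ) ≤ (i : ℝ) := by exact_mod_cast e1
  have e2' : (i : ℝ) + 1 ≤ 2 * ((i / 2 : ℤ) : ℝ) + 2 := by exact_mod_cast e2
  rw [pow_succ] at h1 h2
  constructor <;> nlinarith

theorem nested (m : ℕ) (i j : ℤ) : ∃ i' j', sq (m + 1) i j ⊆ sq m i' j' := by
  refine ⟨i / 2, j / 2, ?_⟩
  rintro x ⟨h1, h2, h3, h4⟩
  have a := half m i (x 0) h1 h2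
  have b := half m j (x 1) h3 h4
  exact ⟨a.1, a.2, b.1, b.2⟩

theorem exists_nv (g : Pl) (hg : ‖g‖ = 1) : ∃ ψ : ℝ, g = nv ψ := by
  have hn : g 0 ^ 2 + g 1 ^ 2 = 1 := by
    have := EuclideanSpace.norm_sq_eq g
    rw [hg, Fin.sum_univ_two] at this
    simp only [Real.norm_eq_abs, sq_abs, one_pow] at this
    exact this.symm
  set z : ℂ := ⟨g 1, - g 0⟩ with hz
  have hz1 : ‖z‖ = 1 := by
    have : ‖z‖ ^ 2 = 1 := by
      rw [← Complex.normSq_eq_norm_sq, Complex.normSq_apply, hz]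
      simp only
      nlinarith
    have h0 := norm_nonneg z
    nlinarith
  have hz0 : z ≠ 0 := by
    intro h
    rw [h, norm_zero] at hz1
    exact zero_ne_one hz1
  refine ⟨z.arg, ?_⟩
  have hc : Real.cos z.arg = g 1 := by rw [Complex.cos_arg hz0, hz1, div_one]
  have hs : Real.sin z.arg = - g 0 := by rw [Complex.sin_arg, hz1, div_one]
  ext k
  fin_cases k
  · simp [nv, hs]
  · simp [nv, hc]

theorem close {m : ℕ} {i j : ℤ} {x y : Pl} (hx : x ∈ sq m i j) (hy : y ∈ sq m i j) :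
    ‖y - x‖ < 2 * (1 / 2) ^ m := by
  obtain ⟨a1, a2, a3, a4⟩ := hx
  obtain ⟨b1, b2, b3, b4⟩ := hy
  have hp : (0 : ℝ) < 2 ^ m := by positivity
  have hq : (2 : ℝ) ^ m * (1 / 2) ^ m = 1 := by
    rw [← mul_pow]
    norm_num
  have hr : (0 : ℝ) < (1 / 2) ^ m := by positivity
  set r : ℝ := (1 / 2) ^ m with hrdef
  have k0 : |y 0 - x 0| < r := by
    rw [abs_lt]
    constructor
    · nlinarith
    · nlinarith
  have k1 : |y 1 - x 1| < r := by
    rw [abs_lt]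
    constructor
    · nlinarith
    · nlinarith
  have hn : ‖y - x‖ ^ 2 = (y 0 - x 0) ^ 2 + (y 1 - x 1) ^ 2 := by
    rw [EuclideanSpace.norm_sq_eq, Fin.sum_univ_two]
    simp
  have s0 : (y 0 - x 0) ^ 2 < r ^ 2 := sq_lt_sq' (abs_lt.1 k0).1 (abs_lt.1 k0).2
  have s1 : (y 1 - x 1) ^ 2 < r ^ 2 := sq_lt_sq' (abs_lt.1 k1).1 (abs_lt.1 k1).2
  nlinarith [norm_nonneg (y - x)]

theorem flat (f : Pl → ℝ) (u : ℝ) (hf : ContDiff ℝ 1 f) (x : Pl) (hx : f x = u)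
    (hD : fderiv ℝ f x ≠ 0) (η : ℝ) (hη : 0 < η) : ∃ m₀ : ℕ, ∀ m ≥ m₀, ∀ i j, x ∈ sq m i j →
      Flat η ({y | f y = u} ∩ sq m i j) := by
  set D := fderiv ℝ f x with hDdef
  have hDpos : 0 < ‖D‖ := norm_pos_iff.2 hD
  have hcont : Continuous (fderiv ℝ f) := hf.continuous_fderiv (by norm_num)
  obtain ⟨δ, hδ, hball⟩ := Metric.continuous_iff.1 hcont x (η * ‖D‖) (by positivity)
  obtain ⟨m₀, hm₀⟩ := exists_pow_lt_of_lt_one (show (0 : ℝ) < δ / 2 by positivity)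
    (show (1 / 2 : ℝ) < 1 by norm_num)
  refine ⟨m₀, fun m hm i j hxs => ?_⟩
  have hsmall : 2 * (1 / 2 : ℝ) ^ m < δ := by
    have : (1 / 2 : ℝ) ^ m ≤ (1 / 2) ^ m₀ := pow_le_pow_of_le_one (by norm_num) (by norm_num) hm
    linarith
  set g : Pl := (InnerProductSpace.toDual ℝ Pl).symm D with hg
  have hgD : ∀ v : Pl, D v = inner ℝ g v := by
    intro v
    rw [hg, InnerProductSpace.toDual_symm_apply]
  have hgn : ‖g‖ = ‖D‖ := by rw [hg, LinearIsometryEquiv.norm_map]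
  obtain ⟨ψ, hψ⟩ := exists_nv (‖g‖⁻¹ • g) (by
    rw [norm_smul, norm_inv, norm_norm, inv_mul_cancel₀ (by rw [hgn]; exact hDpos.ne')])
  refine ⟨ψ, ?_⟩
  rintro y ⟨hy, hys⟩ z ⟨hz, hzs⟩
  have hyb : y ∈ ball x δ := by
    rw [mem_ball, dist_eq_norm]
    exact (close hxs hys).trans hsmall
  have hzb : z ∈ ball x δ := by
    rw [mem_ball, dist_eq_norm]
    exact (close hxs hzs).trans hsmall
  have key := Convex.norm_image_sub_le_of_norm_fderiv_le' (𝕜 := ℝ) (f := f) (φ := D)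
    (C := η * ‖D‖) (s := ball x δ) (x := z) (y := y)
    (fun w _ => (hf.differentiable (by norm_num)) w)
    (fun w hw => by
      have := hball w hw
      rw [dist_eq_norm] at this
      exact this.le) (convex_ball x δ) hzb hyb
  have hfy : f y = u := hy
  have hfz : f z = u := hz
  rw [hfy, hfz, sub_self, zero_sub, norm_neg, hgD, Real.norm_eq_abs] at key
  have e : inner ℝ (nv ψ) (y - z) = ‖g‖⁻¹ * inner ℝ g (y - z) := by
    rw [← hψ, real_inner_smul_left]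
  rw [e, abs_mul, abs_inv, abs_norm, hgn]
  rw [inv_mul_le_iff₀ hDpos]
  calc |inner ℝ g (y - z)| ≤ η * ‖D‖ * ‖y - z‖ := key
    _ = ‖D‖ * (η * ‖y - z‖) := by ring

end ModSQR

open ModSQR in
theorem sqr : StmSQR :=
  ⟨meas, disj, cover, nested, flat⟩

end Pool.Agent.T6.H63.NU
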