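import Pool.Agent.T6.H63.NU.Defs

/-!
Project NU (helper63), MP_4fa179_mp: module TRIG.
-/

set_option autoImplicit false
open MeasureTheory Filter Topology Metric
open scoped ContDiff ENNReal

namespace Pool.Agent.T6.H63.NU

noncomputable section

lemma int_abs_sin (ψ : ℝ) : ∫ x in (0 : ℝ)..Real.pi, |Real.sin (ψ - x)| = 2 := by
  have per : Function.Periodic (fun x => |Real.sin x|) Real.pi := by
    intro x
    simp [Real.sin_add_pi]
  have e1 : ∫ x in (0 : ℝ)..Real.pi, |Real.sin (ψ - x)| =
      ∫ x in (ψ - Real.pi)..(ψ - 0), |Real.sin x| := by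
    rw [intervalIntegral.integral_comp_sub_left (fun x => |Real.sin x|) ψ]
  have e2 := per.intervalIntegral_add_eq (ψ - Real.pi) 0
  rw [e1, sub_zero]
  rw [show ψ - Real.pi + Real.pi = ψ by ring, zero_add] at e2
  rw [e2]
  have e3 : ∫ x in (0 : ℝ)..Real.pi, |Real.sin x| = ∫ x in (0 : ℝ)..Real.pi, Real.sin x := by
    refine intervalIntegral.integral_congr fun x hx => ?_
    rw [Set.uIcc_of_le Real.pi_pos.le] at hx
    exact abs_of_nonneg (Real.sin_nonneg_of_nonneg_of_le_pi hx.1 hx.2)
  rw [e3, integral_sin]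
  simp
  norm_num

lemma sin_lip (a b : ℝ) : |Real.sin a| ≤ |Real.sin b| + |a - b| := by
  have h : |Real.sin a - Real.sin b| ≤ |a - b| := Real.abs_sin_sub_sin_le a b
  have := abs_sub_abs_le_abs_sub (Real.sin a) (Real.sin b)
  linarith

theorem trig : StmTRIG := by
  intro ψ K hK
  have K0 : (0 : ℝ) < K := by exact_mod_cast hK
  have pi0 := Real.pi_pos
  obtain ⟨a, ha⟩ : ∃ a : ℕ → ℝ, a = fun (k : ℕ) => Real.pi * k / K := ⟨_, rfl⟩
  have step : ∀ k, a (k + 1) - a k = Real.pi / K := fun k => by
    rw [ha]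
    push_cast
    field_simp
    ring
  have hint : ∀ x y : ℝ, IntervalIntegrable (fun x => |Real.sin (ψ - x)|) volume x y := fun x y =>
    (Continuous.intervalIntegrable (by fun_prop) x y)
  have sum := intervalIntegral.sum_integral_adjacent_intervals (a := a) (n := K)
    (μ := volume) (f := fun x => |Real.sin (ψ - x)|) (fun k _ => hint _ _)
  have a0 : a 0 = 0 := by rw [ha]; simp
  have aK : a K = Real.pi := by rw [ha]; field_simp
  rw [a0, aK, int_abs_sin] at sum
  have each : ∀ k ∈ Finset.range K, ∫ x in (a k)..(a (k + 1)), |Real.sin (ψ - x)| ≤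
      Real.pi / K * (|Real.sin (ψ - Real.pi * k / K)| + Real.pi / K) := by
    intro k _
    have hle : a k ≤ a (k + 1) := by
      have := step k
      have : 0 < Real.pi / K := by positivity
      linarith
    have h1 : ∫ x in (a k)..(a (k + 1)), |Real.sin (ψ - x)| ≤
        ∫ x in (a k)..(a (k + 1)), (|Real.sin (ψ - Real.pi * k / K)| + Real.pi / K) := by
      refine intervalIntegral.integral_mono_on hle (hint _ _) (by simp) fun x hx => ?_
      refine (sin_lip (ψ - x) (ψ - Real.pi * k / K)).trans ?_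
      have e : a k = Real.pi * k / K := by rw [ha]
      have : |ψ - x - (ψ - Real.pi * k / K)| ≤ Real.pi / K := by
        rw [← e, abs_le]
        have := step k
        constructor <;> linarith [hx.1, hx.2]
      linarith
    refine h1.trans (le_of_eq ?_)
    rw [intervalIntegral.integral_const, step, smul_eq_mul]
  have tot := Finset.sum_le_sum each
  rw [sum, ← Finset.mul_sum, Finset.sum_add_distrib, Finset.sum_const, Finset.card_range,
    nsmul_eq_mul] at tot
  obtain ⟨Sm, hSm⟩ : ∃ Sm : ℝ, Sm = ∑ k ∈ Finset.range K, |Real.sin (ψ - Real.pi * k / K)| :=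
    ⟨_, rfl⟩
  rw [← hSm] at tot ⊢
  rw [le_div_iff₀ K0]
  have h2 : 2 * (K : ℝ) / Real.pi ≤ Sm + K * (Real.pi / K) := by
    rw [div_le_iff₀ pi0]
    have := mul_le_mul_of_nonneg_left tot K0.le
    calc 2 * (K : ℝ) = K * 2 := by ring
      _ ≤ K * (Real.pi / K * (Sm + K * (Real.pi / K))) := this
      _ = (Sm + K * (Real.pi / K)) * Real.pi := by field_simp
  have h3 : (2 / Real.pi - Real.pi / K) * K = 2 * K / Real.pi - K * (Real.pi / K) := by
    ring
  rw [h3]
  linarith

end

end Pool.Agent.T6.H63.NU
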