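import Pool.Agent.T6.H63.NU.Defs
import Pool.Agent.T6.H85.NL.SUC
import Pool.Agent.T6.H85.NL.FLAT
import Pool.Agent.T6.H85.NL.CARL
import Pool.Agent.T6.H85.NL.DBAR

/-!
Project NU (helper63), MP_4fa179_mp, module ZERO.
-/

set_option autoImplicit false
open MeasureTheory Filter Topology Metric
open scoped ContDiff ENNReal

namespace Pool.Agent.T6.H63.NU

namespace ZEROaux

open Pool.Agent.T6.H85.NL

theorem pd_smooth' {f : Pl → ℝ} (hf : ContDiff ℝ ∞ f) (i : Fin 2) : ContDiff ℝ ∞ (pd i f) := by
  unfold pd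
  have h := hf.fderiv_right (m := ∞) (by simp)
  exact h.clm_apply contDiff_const

theorem dl_smooth {f : Pl → ℝ} (hf : ContDiff ℝ ∞ f) (l : List (Fin 2)) :
    ContDiff ℝ ∞ (dl l f) := by
  induction l with
  | nil => exact hf
  | cons i l ih => exact pd_smooth' ih i

theorem dl_iter {f : Pl → ℝ} (hf : ContDiff ℝ ∞ f) (l : List (Fin 2)) :
    ∃ v : Fin l.length → Pl, ∀ x, dl l f x = iteratedFDeriv ℝ l.length f x v := by
  induction l with
  | nil => exact ⟨fun k => 0, fun x => by simp [dl]⟩
  | cons i l ih =>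
    obtain ⟨v, hv⟩ := ih
    refine ⟨Fin.cons (EuclideanSpace.single i 1) v, fun x => ?_⟩
    have hd : DifferentiableAt ℝ (iteratedFDeriv ℝ l.length f) x := by
      have := hf.differentiable_iteratedFDeriv (m := l.length) (by exact_mod_cast WithTop.coe_lt_top _)
      exact this x
    show pd i (dl l f) x = iteratedFDeriv ℝ (l.length + 1) f x _
    rw [iteratedFDeriv_succ_apply_left]
    have : dl l f = fun y => iteratedFDeriv ℝ l.length f y v := funext hv
    rw [this]
    unfold pd
    simp only [Fin.cons_zero]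
    have hh : HasFDerivAt (fun y => iteratedFDeriv ℝ l.length f y v)
        ((ContinuousMultilinearMap.apply ℝ (fun _ : Fin l.length => Pl) ℝ v).comp
          (fderiv ℝ (iteratedFDeriv ℝ l.length f) x)) x :=
      (ContinuousMultilinearMap.apply ℝ (fun _ : Fin l.length => Pl) ℝ v).hasFDerivAt.comp x
        hd.hasFDerivAt
    rw [hh.fderiv]
    simp [Fin.tail_cons]

theorem dl_zero_near {f : Pl → ℝ} {c : Pl} {s : ℝ} (h : ∀ x ∈ ball c s, f x = 0)
    (l : List (Fin 2)) : ∀ x ∈ ball c s, dl l f x = 0 := by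
  induction l with
  | nil => exact h
  | cons i l ih =>
    intro x hx
    have hev : dl l f =ᶠ[𝓝 x] fun _ => 0 := by
      filter_upwards [isOpen_ball.mem_nhds hx] with y hy using ih y hy
    show fderiv ℝ (dl l f) x _ = 0
    rw [hev.fderiv_eq]
    simp

theorem zero_of_dl {f : Pl → ℝ} (hf : ContDiff ℝ ∞ f) (hlap : ∀ y, laplacian f y + f y = 0)
    {z : Pl} (hz : ∀ l, dl l f z = 0) : ∀ x, f x = 0 := by
  have hlap' : ∀ y, lap f y + f y = 0 := by
    intro y
    have h := hlap y
    unfold laplacian at h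
    rw [Fin.sum_univ_two] at h
    exact h
  set W : Set Pl := {x | ∀ l, dl l f x = 0} with hW
  have hclosed : IsClosed W := by
    have : W = ⋂ l, {x | dl l f x = 0} := by ext x; simp [hW]
    rw [this]
    exact isClosed_iInter fun l => isClosed_eq (dl_smooth hf l).continuous continuous_const
  have hopen : IsOpen W := by
    rw [Metric.isOpen_iff]
    intro c hc
    have hflat := flat c 1 (1/2) (by norm_num) (by norm_num) f hf.contDiffOn hc
    have hflat' : ∀ i : Fin 2, ∀ N : ℕ, ∃ C : ℝ, ∀ x ∈ closedBall c (1/2),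
        |pd i f x| ≤ C * ‖x - c‖ ^ N := by
      intro i
      refine flat c 1 (1/2) (by norm_num) (by norm_num) (pd i f) (pd_smooth' hf i).contDiffOn ?_
      intro l
      rw [FLAT.dl_append]
      exact hc _
    obtain ⟨s, hs, hzero⟩ := suc (carl dbar) c 1 1 one_pos f hf.contDiffOn (by
      intro x _
      have := hlap' x
      have h2 : lap f x = - f x := by linarith
      rw [h2, abs_neg, one_mul]) (by
      intro N
      obtain ⟨C, hC⟩ := hflat N
      obtain ⟨C0, hC0⟩ := hflat' 0 N
      obtain ⟨C1, hC1⟩ := hflat' 1 N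
      refine ⟨max C (max C0 C1), fun x hx => ?_⟩
      have hx' : x ∈ closedBall c (1/2) := ball_subset_closedBall hx
      have hn : 0 ≤ ‖x - c‖ ^ N := by positivity
      refine ⟨(hC x hx').trans (mul_le_mul_of_nonneg_right (le_max_left _ _) hn), fun i => ?_⟩
      fin_cases i
      · exact (hC0 x hx').trans (mul_le_mul_of_nonneg_right
          ((le_max_left _ _).trans (le_max_right _ _)) hn)
      · exact (hC1 x hx').trans (mul_le_mul_of_nonneg_right
          ((le_max_right _ _).trans (le_max_right _ _)) hn))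
    exact ⟨s, hs, fun x hx l => dl_zero_near hzero l x hx⟩
  have hne : W.Nonempty := ⟨z, hz⟩
  have huniv : W = Set.univ := IsClopen.eq_univ ⟨hclosed, hopen⟩ hne
  intro x
  have hx : x ∈ W := huniv ▸ Set.mem_univ x
  exact hx []

end ZEROaux

open ZEROaux Pool.Agent.T6.H85.NL in
theorem zero : StmZERO := by
  intro f hf hlap z hz
  refine zero_of_dl hf hlap (z := z) fun l => ?_
  obtain ⟨v, hv⟩ := dl_iter hf l
  rw [hv z, hz]
  simp

end Pool.Agent.T6.H63.NU
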