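import Pool.Agent.T6.H63.NU.AVG
import Pool.Agent.T6.H63.NU.MEAS
import Pool.Agent.T6.H63.NU.TRIG
import Pool.Agent.T6.H63.NU.LIP
import Pool.Agent.T6.H63.NU.PROJ
import Pool.Agent.T6.H63.NU.CNT
import Pool.Agent.T6.H63.NU.SQR
import Pool.Agent.T6.H63.NU.GEO
import Pool.Agent.T6.H63.NU.ZERO
import Pool.Agent.T6.H63.NU.SNG
import Pool.Agent.T6.H63.NU.BAD
import Pool.Agent.T6.H63.NU.DISC

/-!
Project NU (helper63), MP_4fa179_mp: the mean nodal length, final form.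
-/

set_option autoImplicit false
open MeasureTheory Filter Topology Metric
open scoped ContDiff ENNReal

namespace Pool.Agent.T6.H63.NU

noncomputable section

universe v

variable {S : Type v} [MeasurableSpace S] {P : Measure S}

theorem hSNG : StmSNG := sng zero
theorem hBAD : StmBAD := bad hSNG
theorem hGEO : StmGEO := geo trig lip proj cnt_ge sqr

/-- the mean length of the regular part of a level set -/
theorem len_reg [IsProbabilityMeasure P] {F : S → Pl → ℝ}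
    (mF : ∀ y, Measurable fun s => F s y)
    (sF : ∀ s, ContDiff ℝ ∞ (F s))
    (eF : ∀ s y, Pool.Agent.Y139.SW.Lap (F s) y + F s y = 0)
    (eF' : ∀ s y, laplacian (F s) y + F s y = 0)
    (st : ∀ x : Pl, P.map (fun s y => F s (y + x)) = P.map (fun s y => F s y))
    (l2 : Integrable (fun s => F s 0 ^ 2) P) (u : ℝ) {R : ℝ} (hR : 0 < R) :
    ∃ g : S → ℝ≥0∞, Measurable g ∧
      (∀ s, μH[1] {x | x ∈ ball (0 : Pl) R ∧ F s x = u ∧ fderiv ℝ (F s) x ≠ 0} ≤ g s) ∧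
      ∫⁻ s, g s ∂P ≤ ENNReal.ofReal (Real.pi / 2 * R ^ 2) :=
  mean_len meas.{v} disc hGEO hBAD mF sF eF eF' st l2 u hR

/-- the nodal set has the same length as its regular part -/
theorem nodal_le {f : Pl → ℝ} (sf : ContDiff ℝ ∞ f) (ef : ∀ y, laplacian f y + f y = 0)
    (hne : ∃ x, f x ≠ 0) (R : ℝ) :
    μH[1] {x | x ∈ ball (0 : Pl) R ∧ f x = 0} ≤
      μH[1] {x | x ∈ ball (0 : Pl) R ∧ f x = 0 ∧ fderiv ℝ f x ≠ 0} := by
  have : NullSingletonClass (μH[1] : Measure Pl) := Measure.nullSingletonClass_hausdorff Pl one_pos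
  have h0 : μH[1] {x | f x = 0 ∧ fderiv ℝ f x = 0} = 0 := (hSNG f sf ef hne).measure_zero _
  have sub : {x | x ∈ ball (0 : Pl) R ∧ f x = 0} ⊆
      {x | x ∈ ball (0 : Pl) R ∧ f x = 0 ∧ fderiv ℝ f x ≠ 0} ∪
        {x | f x = 0 ∧ fderiv ℝ f x = 0} := by
    rintro x ⟨h1, h2⟩
    by_cases h : fderiv ℝ f x = 0
    · exact Or.inr ⟨h2, h⟩
    · exact Or.inl ⟨h1, h2, h⟩
  refine (measure_mono sub).trans ((measure_union_le _ _).trans ?_)
  rw [h0, add_zero]

end

end Pool.Agent.T6.H63.NU
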