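import Pool.Agent.T6.H63.NU.Defs
import Pool.Agent.T6.H63.ZC.Tr

/-!
Project NU (helper63), MP_4fa179_mp: the mean nodal length.
-/

set_option autoImplicit false
open MeasureTheory Filter Topology Metric
open scoped ContDiff ENNReal

namespace Pool.Agent.T6.H63.NU

noncomputable section

lemma hc_cont (R : ℝ) : Continuous (hc R) := by
  unfold hc
  fun_prop

lemma hc_pos {R p : ℝ} (hp : |p| < R) : 0 < hc R p := by
  unfold hc
  apply Real.sqrt_pos.2
  have := abs_lt.1 hp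
  nlinarith

lemma pt_cont (R φ τ : ℝ) : Continuous fun p => pt R φ p τ := by
  unfold pt
  exact (continuous_id.smul continuous_const).add
    ((continuous_const.mul (hc_cont R)).smul continuous_const)

lemma pt_cont' (R φ p : ℝ) : Continuous fun τ => pt R φ p τ := by
  unfold pt
  fun_prop

lemma uv_norm (φ : ℝ) : ‖uv φ‖ = 1 := by
  unfold uv
  rw [EuclideanSpace.norm_eq]
  simp [Fin.sum_univ_two]

universe v

variable {S : Type v} [MeasurableSpace S] {P : Measure S}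

/-- the field along the chords -/
def Xc (F : S → Pl → ℝ) (R φ : ℝ) (q : S × ℝ) (τ : ℝ) : ℝ := F q.1 (pt R φ q.2 τ)

lemma joint {F : S → Pl → ℝ} (mF : ∀ y, Measurable fun s => F s y)
    (cF : ∀ s, Continuous (F s)) : Measurable (Function.uncurry fun (y : Pl) (s : S) => F s y) :=
  measurable_uncurry_of_continuous_of_measurable (fun s => cF s) mF

lemma Xc_meas {F : S → Pl → ℝ} (mF : ∀ y, Measurable fun s => F s y)
    (cF : ∀ s, Continuous (F s)) (R φ τ : ℝ) : Measurable fun q : S × ℝ => Xc F R φ q τ := by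
  have h := joint mF cF
  have e : (fun q : S × ℝ => Xc F R φ q τ) =
      (Function.uncurry fun (y : Pl) (s : S) => F s y) ∘ fun q : S × ℝ => (pt R φ q.2 τ, q.1) := by
    funext q; rfl
  rw [e]
  exact h.comp (((pt_cont R φ τ).measurable.comp measurable_snd).prodMk measurable_fst)

/-- the mean number of points on one chord -/
lemma chord [IsProbabilityMeasure P] {F : S → Pl → ℝ}
    (mF : ∀ y, Measurable fun s => F s y)
    (sF : ∀ s, ContDiff ℝ ∞ (F s))
    (eF : ∀ s y, Pool.Agent.Y139.SW.Lap (F s) y + F s y = 0)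
    (st : ∀ x : Pl, P.map (fun s y => F s (y + x)) = P.map (fun s y => F s y))
    (l2 : Integrable (fun s => F s 0 ^ 2) P) (u R φ p : ℝ) (hp : |p| < R) :
    ∫⁻ s in {s | ∃ τ : ℝ, F s (pt R φ p τ) ≠ u}, cnt (F s) u R φ p ∂P ≤
      ENNReal.ofReal (2 * hc R p / Real.pi) := by
  have h0 := hc_pos hp
  have T0 : 0 < 2 * hc R p := by positivity
  obtain ⟨x0, hx0⟩ : ∃ x0 : Pl, x0 = p • nv φ - hc R p • uv φ := ⟨_, rfl⟩
  have key := (ZC.mean_count_F (P := P) mF sF eF st l2 {x0} (fun _ => 1) (uv φ)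
    (uv_norm φ).le u T0).2.2
  have e1 : ∀ (s : S) (t : ℝ), ∑ x ∈ ({x0} : Finset Pl), (fun _ => (1 : ℝ)) x * F s (t • uv φ + x) =
      F s (t • uv φ + x0) := by
    intro s t
    rw [Finset.sum_singleton, one_mul]
  simp only [e1] at key
  have e2 : ∀ τ : ℝ, (2 * hc R p * τ) • uv φ + x0 = pt R φ p τ := by
    intro τ
    rw [hx0]
    unfold pt
    module
  have e3 : {s | ∃ t : ℝ, F s (t • uv φ + x0) ≠ u} = {s | ∃ τ : ℝ, F s (pt R φ p τ) ≠ u} := by
    ext s
    constructor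
    · rintro ⟨t, ht⟩
      refine ⟨t / (2 * hc R p), ?_⟩
      rw [← e2, mul_div_cancel₀ _ T0.ne']
      exact ht
    · rintro ⟨τ, hτ⟩
      exact ⟨2 * hc R p * τ, by rw [e2]; exact hτ⟩
  have e4 : ∀ s, (({t | t ∈ Set.Ico 0 (2 * hc R p) ∧ F s (t • uv φ + x0) = u} : Set ℝ).encard :
      ℝ≥0∞) = cnt (F s) u R φ p := by
    intro s
    unfold cnt
    congr 1
    have : ({t | t ∈ Set.Ico 0 (2 * hc R p) ∧ F s (t • uv φ + x0) = u} : Set ℝ) =
        (fun τ => 2 * hc R p * τ) '' {τ | τ ∈ Set.Ico (0 : ℝ) 1 ∧ F s (pt R φ p τ) = u} := by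
      ext t
      constructor
      · rintro ⟨⟨h1, h2⟩, h3⟩
        refine ⟨t / (2 * hc R p), ⟨⟨by positivity, by rw [div_lt_one T0]; exact h2⟩, ?_⟩, ?_⟩
        · rw [← e2, mul_div_cancel₀ _ T0.ne']
          exact h3
        · show 2 * hc R p * (t / (2 * hc R p)) = t
          rw [mul_div_cancel₀ _ T0.ne']
      · rintro ⟨τ, ⟨⟨h1, h2⟩, h3⟩, rfl⟩
        refine ⟨⟨by positivity, ?_⟩, ?_⟩
        · show 2 * hc R p * τ < 2 * hc R p
          nlinarith
        · show F s ((2 * hc R p * τ) • uv φ + x0) = u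
          rw [e2]; exact h3
    rw [this]
    refine Function.Injective.encard_image ?_ _
    intro a b hab
    exact mul_left_cancel₀ T0.ne' hab
  rw [e3] at key
  simp only [e4] at key
  refine key.trans ?_
  calc ENNReal.ofReal (2 * hc R p / Real.pi) * P {s | ∃ τ : ℝ, F s (pt R φ p τ) ≠ u} ≤
        ENNReal.ofReal (2 * hc R p / Real.pi) * 1 := by gcongr; exact prob_le_one
    _ = _ := mul_one _

/-- the set of the pairs for which the field is not constant on the line -/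
def Wc (F : S → Pl → ℝ) (u R φ : ℝ) : Set (S × ℝ) := {q | ∃ τ, Xc F R φ q τ ≠ u}

/-- the number of points, off the bad lines -/
def Nc (F : S → Pl → ℝ) (u R φ : ℝ) : S × ℝ → ℝ≥0∞ :=
  (Wc F u R φ).indicator fun q => cnt (F q.1) u R φ q.2

lemma Nc_meas (hM : StmMEAS.{v}) {F : S → Pl → ℝ} (mF : ∀ y, Measurable fun s => F s y)
    (cF : ∀ s, Continuous (F s)) (u R φ : ℝ) : Measurable (Nc F u R φ) := by
  obtain ⟨h1, h2⟩ := hM (S × ℝ) inferInstance (Xc F R φ) (Xc_meas mF cF R φ)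
    (fun q => (cF q.1).comp (pt_cont' R φ q.2)) u
  exact h1.indicator h2

/-- the sum over the directions -/
def Gs (F : S → Pl → ℝ) (u R : ℝ) (K : ℕ) (s : S) : ℝ≥0∞ :=
  ∑ k ∈ Finset.range K, ∫⁻ p in Set.Ioo (-R) R, Nc F u R (Real.pi * k / K) (s, p)

lemma Gs_meas (hM : StmMEAS.{v}) {F : S → Pl → ℝ} (mF : ∀ y, Measurable fun s => F s y)
    (cF : ∀ s, Continuous (F s)) (u R : ℝ) (K : ℕ) : Measurable (Gs F u R K) := by
  unfold Gs
  exact Finset.measurable_fun_sum _ fun k _ =>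
    (Nc_meas hM mF cF u R _).lintegral_prod_right'

lemma Gs_int (hM : StmMEAS.{v}) (hD : StmDISC) [IsProbabilityMeasure P] {F : S → Pl → ℝ}
    (mF : ∀ y, Measurable fun s => F s y)
    (sF : ∀ s, ContDiff ℝ ∞ (F s))
    (eF : ∀ s y, Pool.Agent.Y139.SW.Lap (F s) y + F s y = 0)
    (st : ∀ x : Pl, P.map (fun s y => F s (y + x)) = P.map (fun s y => F s y))
    (l2 : Integrable (fun s => F s 0 ^ 2) P) (u : ℝ) {R : ℝ} (hR : 0 < R) (K : ℕ) :
    ∫⁻ s, Gs F u R K s ∂P ≤ K * ENNReal.ofReal (R ^ 2) := by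
  have cF : ∀ s, Continuous (F s) := fun s => (sF s).continuous
  unfold Gs
  rw [lintegral_finsetSum _ fun k _ => (Nc_meas hM mF cF u R _).lintegral_prod_right']
  have each : ∀ k ∈ Finset.range K, ∫⁻ s, (∫⁻ p in Set.Ioo (-R) R,
      Nc F u R (Real.pi * k / K) (s, p)) ∂P ≤ ENNReal.ofReal (R ^ 2) := by
    intro k _
    obtain ⟨φ, hφ⟩ : ∃ φ : ℝ, φ = Real.pi * k / K := ⟨_, rfl⟩
    rw [← hφ, ← hD R hR]
    rw [lintegral_lintegral_swap (f := fun s p => Nc F u R φ (s, p))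
      (Nc_meas hM mF cF u R φ).aemeasurable]
    refine setLIntegral_mono' measurableSet_Ioo fun p hp => ?_
    have hp' : |p| < R := abs_lt.2 hp
    refine le_trans (le_of_eq ?_) (chord mF sF eF st l2 u R φ p hp')
    have mW : MeasurableSet {s | ∃ τ : ℝ, F s (pt R φ p τ) ≠ u} := by
      have := (hM (S × ℝ) inferInstance (Xc F R φ) (Xc_meas mF cF R φ)
        (fun q => (cF q.1).comp (pt_cont' R φ q.2)) u).2
      exact (measurable_id.prodMk measurable_const : Measurable fun s : S => (s, p)) this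
    rw [← lintegral_indicator mW]
    refine lintegral_congr fun s => ?_
    unfold Nc
    by_cases h : ∃ τ : ℝ, F s (pt R φ p τ) ≠ u
    · rw [Set.indicator_of_mem (by exact h), Set.indicator_of_mem (by exact h)]
    · rw [Set.indicator_of_notMem (by exact h), Set.indicator_of_notMem (by exact h)]
  refine (Finset.sum_le_sum each).trans (le_of_eq ?_)
  rw [Finset.sum_const, Finset.card_range, nsmul_eq_mul]

/-- the constant of GEO -/
def cK (K : ℕ) (η : ℝ) : ℝ := K * ((2 / Real.pi - Real.pi / K) * √(1 - η ^ 2) - η)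

lemma lower (hG : StmGEO) (hB : StmBAD) {f : Pl → ℝ} (sf : ContDiff ℝ ∞ f)
    (ef : ∀ y, laplacian f y + f y = 0) (u : ℝ) {R : ℝ} (hR : 0 < R) {K : ℕ} (hK : 0 < K)
    {η : ℝ} (h0 : 0 < η) (h1 : η < 1) :
    ENNReal.ofReal (cK K η) * μH[1] {x | x ∈ ball (0 : Pl) R ∧ f x = u ∧ fderiv ℝ f x ≠ 0} ≤
      ∑ k ∈ Finset.range K, ∫⁻ p in Set.Ioo (-R) R,
        ({p | ∃ τ, f (pt R (Real.pi * k / K) p τ) ≠ u} : Set ℝ).indicator
          (fun p => cnt f u R (Real.pi * k / K) p) p := by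
  by_cases hu : ∃ x, f x ≠ u
  · refine (hG f (sf.of_le (by simp)) u R hR K hK η h0 h1).trans ?_
    refine Finset.sum_le_sum fun k _ => ?_
    obtain ⟨φ, hφ⟩ : ∃ φ : ℝ, φ = Real.pi * k / K := ⟨_, rfl⟩
    rw [← hφ]
    refine le_of_eq (setLIntegral_congr_fun_ae measurableSet_Ioo ?_)
    have cb := (hB f sf ef u hu φ)
    have : ∀ᵐ p : ℝ, p ∉ {p : ℝ | ∀ t : ℝ, f (p • nv φ + t • uv φ) = u} :=
      measure_eq_zero_iff_ae_notMem.1 (cb.measure_zero volume)
    filter_upwards [this] with p hp hpR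
    have h0 := hc_pos (abs_lt.2 hpR)
    have : p ∈ {p | ∃ τ, f (pt R φ p τ) ≠ u} := by
      have hp' : ¬ ∀ t : ℝ, f (p • nv φ + t • uv φ) = u := hp
      push Not at hp'
      obtain ⟨t, ht⟩ := hp'
      refine ⟨(t / hc R p + 1) / 2, ?_⟩
      have e : pt R φ p ((t / hc R p + 1) / 2) = p • nv φ + t • uv φ := by
        unfold pt
        congr 2
        field_simp
        ring
      rw [e]; exact ht
    rw [Set.indicator_of_mem this]
  · have : {x | x ∈ ball (0 : Pl) R ∧ f x = u ∧ fderiv ℝ f x ≠ 0} = ∅ := by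
      push Not at hu
      rw [Set.eq_empty_iff_forall_notMem]
      rintro x ⟨-, -, h⟩
      apply h
      have : f = fun _ => u := funext hu
      rw [this]
      simp
    rw [this, measure_empty, mul_zero]
    exact zero_le

lemma cK_lim : Tendsto (fun j : ℕ => cK (j + 2) (1 / ((j : ℝ) + 2)) / ((j : ℝ) + 2)) atTop
    (𝓝 (2 / Real.pi)) := by
  have e : (fun j : ℕ => cK (j + 2) (1 / ((j : ℝ) + 2)) / ((j : ℝ) + 2)) = fun j : ℕ =>
      (2 / Real.pi - Real.pi * (1 / ((j : ℝ) + 2))) * √(1 - (1 / ((j : ℝ) + 2)) ^ 2) -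
        1 / ((j : ℝ) + 2) := by
    funext j
    unfold cK
    push_cast
    have : (j : ℝ) + 2 ≠ 0 := by positivity
    field_simp
  rw [e]
  have t : Tendsto (fun j : ℕ => 1 / ((j : ℝ) + 2)) atTop (𝓝 0) := by
    have h1 : Tendsto (fun j : ℕ => (j : ℝ) + 2) atTop atTop :=
      tendsto_atTop_add_const_right _ _ tendsto_natCast_atTop_atTop
    refine (h1.inv_tendsto_atTop).congr fun j => ?_
    rw [one_div]; rfl
  have c1 : Tendsto (fun x : ℝ => (2 / Real.pi - Real.pi * x) * √(1 - x ^ 2) - x) (𝓝 0)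
      (𝓝 ((2 / Real.pi - Real.pi * 0) * √(1 - 0 ^ 2) - 0)) := by
    apply Continuous.tendsto
    fun_prop
  have := c1.comp t
  simpa [Function.comp_def] using this

/-- **the mean length of the level sets** -/
theorem mean_len (hM : StmMEAS.{v}) (hD : StmDISC) (hG : StmGEO) (hB : StmBAD)
    [IsProbabilityMeasure P] {F : S → Pl → ℝ}
    (mF : ∀ y, Measurable fun s => F s y)
    (sF : ∀ s, ContDiff ℝ ∞ (F s))
    (eF : ∀ s y, Pool.Agent.Y139.SW.Lap (F s) y + F s y = 0)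
    (eF' : ∀ s y, laplacian (F s) y + F s y = 0)
    (st : ∀ x : Pl, P.map (fun s y => F s (y + x)) = P.map (fun s y => F s y))
    (l2 : Integrable (fun s => F s 0 ^ 2) P) (u : ℝ) {R : ℝ} (hR : 0 < R) :
    ∃ g : S → ℝ≥0∞, Measurable g ∧
      (∀ s, μH[1] {x | x ∈ ball (0 : Pl) R ∧ F s x = u ∧ fderiv ℝ (F s) x ≠ 0} ≤ g s) ∧
      ∫⁻ s, g s ∂P ≤ ENNReal.ofReal (Real.pi / 2 * R ^ 2) := by
  have cF : ∀ s, Continuous (F s) := fun s => (sF s).continuous
  have pi0 := Real.pi_pos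
  obtain ⟨j₀, hj₀⟩ : ∃ j₀ : ℕ, ∀ j ≥ j₀, 0 < cK (j + 2) (1 / ((j : ℝ) + 2)) := by
    have := cK_lim.eventually (lt_mem_nhds (show (0 : ℝ) < 2 / Real.pi by positivity))
    obtain ⟨j₀, h⟩ := eventually_atTop.1 this
    refine ⟨j₀, fun j hj => ?_⟩
    have h2 := h j hj
    have h3 : (0 : ℝ) < (j : ℝ) + 2 := by positivity
    exact (div_pos_iff_of_pos_right h3).1 h2
  obtain ⟨c, hc⟩ : ∃ c : ℕ → ℝ, c = fun j => cK (j + j₀ + 2) (1 / (((j + j₀ : ℕ) : ℝ) + 2)) :=
    ⟨_, rfl⟩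
  have c0 : ∀ j, 0 < c j := fun j => by
    rw [hc]
    exact hj₀ (j + j₀) (by omega)
  obtain ⟨g, hg⟩ : ∃ g : ℕ → S → ℝ≥0∞, g = fun j s =>
      (ENNReal.ofReal (c j))⁻¹ * Gs F u R (j + j₀ + 2) s := ⟨_, rfl⟩
  have mg : ∀ j, Measurable (g j) := fun j => by
    rw [hg]
    exact (Gs_meas hM mF cF u R _).const_mul _
  refine ⟨fun s => ⨅ j, g j s, Measurable.iInf mg, ?_, ?_⟩
  · intro s
    refine le_iInf fun j => ?_
    have hne : ENNReal.ofReal (c j) ≠ 0 := by
      rw [ne_eq, ENNReal.ofReal_eq_zero, not_le]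
      exact c0 j
    have h1 := lower hG hB (sF s) (eF' s) u hR (K := j + j₀ + 2) (by omega)
      (η := 1 / (((j + j₀ : ℕ) : ℝ) + 2)) (by positivity) (by
        rw [div_lt_one (by positivity)]
        have : (0 : ℝ) ≤ ((j + j₀ : ℕ) : ℝ) := Nat.cast_nonneg _
        linarith)
    have h2 : ∑ k ∈ Finset.range (j + j₀ + 2), ∫⁻ p in Set.Ioo (-R) R,
        ({p | ∃ τ, F s (pt R (Real.pi * k / (j + j₀ + 2 : ℕ)) p τ) ≠ u} : Set ℝ).indicator
          (fun p => cnt (F s) u R (Real.pi * k / (j + j₀ + 2 : ℕ)) p) p =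
        Gs F u R (j + j₀ + 2) s := by
      unfold Gs
      refine Finset.sum_congr rfl fun k _ => ?_
      refine lintegral_congr fun p => ?_
      unfold Nc
      by_cases h : ∃ τ, F s (pt R (Real.pi * k / (j + j₀ + 2 : ℕ)) p τ) ≠ u
      · rw [Set.indicator_of_mem (by exact h), Set.indicator_of_mem (by exact h)]
      · rw [Set.indicator_of_notMem (by exact h), Set.indicator_of_notMem (by exact h)]
    rw [h2] at h1
    rw [hg]
    show _ ≤ (ENNReal.ofReal (c j))⁻¹ * Gs F u R (j + j₀ + 2) s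
    rw [mul_comm, ← div_eq_mul_inv, ENNReal.le_div_iff_mul_le (Or.inl hne)
      (Or.inl ENNReal.ofReal_ne_top), mul_comm]
    have e : cK (j + j₀ + 2) (1 / (((j + j₀ : ℕ) : ℝ) + 2)) = c j := by rw [hc]
    rw [e] at h1
    exact h1
  · have h1 : ∀ j, ∫⁻ s, (⨅ j, g j s) ∂P ≤ ENNReal.ofReal (R ^ 2 / (c j / ((j + j₀ + 2 : ℕ) : ℝ))) := by
      intro j
      refine (lintegral_mono fun s => iInf_le (fun j => g j s) j).trans ?_
      rw [hg]
      show ∫⁻ s, (ENNReal.ofReal (c j))⁻¹ * Gs F u R (j + j₀ + 2) s ∂P ≤ _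
      rw [lintegral_const_mul _ (Gs_meas hM mF cF u R _)]
      have h2 := Gs_int hM hD mF sF eF st l2 u hR (j + j₀ + 2)
      have c0 := c0 j
      calc (ENNReal.ofReal (c j))⁻¹ * ∫⁻ s, Gs F u R (j + j₀ + 2) s ∂P ≤
            (ENNReal.ofReal (c j))⁻¹ * (((j + j₀ + 2 : ℕ) : ℝ≥0∞) * ENNReal.ofReal (R ^ 2)) := by
              gcongr
        _ = ENNReal.ofReal (R ^ 2 / (c j / ((j + j₀ + 2 : ℕ) : ℝ))) := by
              rw [← ENNReal.ofReal_inv_of_pos c0, ← ENNReal.ofReal_natCast,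
                ← ENNReal.ofReal_mul (by positivity), ← ENNReal.ofReal_mul (by positivity)]
              congr 1
              have : ((j + j₀ + 2 : ℕ) : ℝ) ≠ 0 := by positivity
              field_simp
    have t : Tendsto (fun j : ℕ => c j / ((j + j₀ + 2 : ℕ) : ℝ)) atTop (𝓝 (2 / Real.pi)) := by
      have := cK_lim.comp (tendsto_add_atTop_nat j₀)
      rw [hc]
      refine this.congr fun j => ?_
      show cK (j + j₀ + 2) (1 / (((j + j₀ : ℕ) : ℝ) + 2)) / (((j + j₀ : ℕ) : ℝ) + 2) = _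
      push_cast
      rfl
    have t2 : Tendsto (fun j : ℕ => ENNReal.ofReal (R ^ 2 / (c j / ((j + j₀ + 2 : ℕ) : ℝ)))) atTop
        (𝓝 (ENNReal.ofReal (R ^ 2 / (2 / Real.pi)))) :=
      ENNReal.tendsto_ofReal (tendsto_const_nhds.div t (by positivity))
    have := ge_of_tendsto' t2 h1
    refine this.trans (le_of_eq ?_)
    congr 1
    field_simp

end

end Pool.Agent.T6.H63.NU
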